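import Pool.Agent.KS6_46.RF.Forced
import Pool.Agent.KS6_46.RF.Top
import Pool.Graph.R_pool_sql_team_seeded_3997aac3.Results.MP_8a5e40_gt.SmallFamilies

/-!
# ℝ-factorizable groups homeomorphic to a product with an uncountable discrete factor

It is independent of ZFC whether some ℝ-factorizable group is homeomorphic to the product of a
topological group and an uncountable discrete space.

Let `Y = ω₁ × ω`. A forcing with the countable chain condition adds a family of homomorphisms from
the group `G` of the finite subsets of `Y` to a countable Boolean group. Their kernels, intersected
with the subgroup of the sets of even size, are taken as open subgroups. The homomorphisms with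
index `ψ α`, `α ∈ Y`, have the property that the sets `α + ker (ψ α)` form a partition of the set
of all finite sets of odd size; so `G × ω` is homeomorphic to its product with an uncountable
discrete space. The other homomorphisms are indexed by names for assignments of colours and
neighbourhoods to the points of `G` and keep the promise that each point `x + y` with `y` in the
kernel is in the neighbourhood of some point of the colour of `x`; this makes `G`
ℝ-factorizable. For the countable chain condition one amalgamates two conditions of the same type
together with finitely many further copies of them, in layers, such that each element supported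
by one layer is absorbed by exactly one copy of the next layer.

`PhiFor Y S ψ` is the combinatorial statement satisfied by the extension and `PhiHolds P Y S ψ` is
its translation into the forcing language (see `Pool.Agent.Helper669.Forcing` for the
connectives). The last part is a result of the library, which is repeated here since both parts
together answer the question.
-/

set_option autoImplicit false

namespace Pool.Agent.Results.MP_8a5e40_gt.ConsistentCounterexample

open Cardinal Pool.Agent.Helper669.Forcing Pool.Agent.KS6_46.RF Pool.Agent.Q212.RF

universe u

/-- There are an ℝ-factorizable group `G`, a topological group `H` and an uncountable discrete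
space `D` such that `G` is homeomorphic to `H × D`. All groups are Hausdorff. -/
def HasExample : Prop :=
  ∃ (G : Type u) (_ : Group G) (_ : TopologicalSpace G) (_ : IsTopologicalGroup G) (_ : T2Space G)
    (H : Type u) (_ : Group H) (_ : TopologicalSpace H) (_ : IsTopologicalGroup H) (_ : T2Space H)
    (D : Type u) (_ : TopologicalSpace D) (_ : DiscreteTopology D),
    RFactorizable G ∧ Uncountable D ∧ Nonempty (G ≃ₜ H × D)

/-- (1) There are sets `Y`, `S`, a map `ψ` and a preordered set `P` of forcing conditions all of
which force that all cardinals are preserved and that `PhiFor Y S ψ` holds. (2) `PhiFor Y S ψ`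
implies that there are groups as in the question. (3) For the trivial forcing `PhiHolds` is the
plain statement `PhiFor`. (4) If `2 ^ ℵ₀ < 2 ^ ℵ₁` then there are no such groups. -/
theorem result :
    (∃ (Y S : Type) (ψ : Y → S) (P : Type) (_ : Preorder P), Nonempty P ∧
      ∀ p : P, p ∈ CardinalsPreserved.{0, 0} P ∧ p ∈ PhiHolds P Y S ψ) ∧
    (∀ (Y S : Type) (ψ : Y → S), PhiFor Y S ψ → HasExample.{0}) ∧
    (∀ (Y S : Type) (ψ : Y → S) (x : Unit), x ∈ PhiHolds Unit Y S ψ ↔ PhiFor Y S ψ) ∧
    ((2 : Cardinal.{0}) ^ ℵ₀ < 2 ^ ℵ₁ → ¬ HasExample.{u}) := by
  refine ⟨exists_forcing, fun Y S ψ h => example_of_phi h, fun Y S ψ x => triv_PhiHolds, ?_⟩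
  rintro hlt ⟨G, _, _, _, _, H, _, _, _, _, D, _, _, hG, hD, ⟨e⟩⟩
  have h1 := (Pool.Agent.Results.MP_8a5e40_gt.SmallFamilies.result.{u}.2.1 hlt).2 G hG H D
    (Cardinal.aleph0_lt_mk_iff.2 hD)
  exact h1.false e

end Pool.Agent.Results.MP_8a5e40_gt.ConsistentCounterexample
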